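import Pool.Agent.N325.FC.Stm

/-!
# Project FC (helper325), leaf FC/COUNT: cells of length `τ` meeting `K` (helper252)
-/

set_option autoImplicit false
open MeasureTheory
open scoped ENNReal

namespace Pool.Agent.N252.FC

/-- the cell with the number `i` -/
def cell (τ : ℝ) (i : ℤ) : Set ℝ := Set.Ico ((i : ℝ) * τ) (((i : ℝ) + 1) * τ)

theorem mem_cell {τ : ℝ} (hτ : 0 < τ) (i : ℤ) (x : ℝ) : x ∈ cell τ i ↔ ⌊x / τ⌋ = i := by
  unfold cell
  rw [Set.mem_Ico, Int.floor_eq_iff, le_div_iff₀ hτ, div_lt_iff₀ hτ]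

theorem vol_cell {τ : ℝ} (i : ℤ) : volume (cell τ i) = ENNReal.ofReal τ := by
  unfold cell
  rw [Real.volume_Ico]
  congr 1
  ring

/-- volume of a union of cells -/
theorem cells_le {τ : ℝ} (hτ : 0 < τ) (S : Finset ℤ) (T K : Set ℝ) (hT : volume T ≠ ⊤)
    (hK : MeasurableSet K) (hKT : K ⊆ T) (h : ∀ i ∈ S, cell τ i ⊆ T) (hd : ∀ i ∈ S, Disjoint (cell τ i) K) :
    (S.card : ℝ) * τ + (volume K).toReal ≤ (volume T).toReal := by
  classical
  have h1 : volume (⋃ i ∈ S, cell τ i) = (S.card : ℝ≥0∞) * ENNReal.ofReal τ := by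
    rw [measure_biUnion_finset]
    · simp only [vol_cell]
      rw [Finset.sum_const, nsmul_eq_mul]
    · intro i _ j _ hij
      refine Set.disjoint_left.2 fun x hx hx' => hij ?_
      rw [mem_cell hτ] at hx hx'
      exact hx.symm.trans hx'
    · intro i _
      exact measurableSet_Ico
  have h2 : Disjoint (⋃ i ∈ S, cell τ i) K := by
    rw [Set.disjoint_iUnion₂_left]
    exact hd
  have h3 : volume ((⋃ i ∈ S, cell τ i) ∪ K) ≤ volume T :=
    measure_mono (Set.union_subset (Set.iUnion₂_subset h) hKT)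
  rw [measure_union h2 hK, h1] at h3
  have h4 : volume K ≠ ⊤ := ne_top_of_le_ne_top hT (measure_mono hKT)
  have h5 := ENNReal.toReal_mono hT h3
  rw [ENNReal.toReal_add (ENNReal.mul_ne_top (ENNReal.natCast_ne_top _) ENNReal.ofReal_ne_top) h4,
    ENNReal.toReal_mul, ENNReal.toReal_natCast, ENNReal.toReal_ofReal hτ.le] at h5
  exact h5

theorem count : Pool.Agent.N325.FC.StmCOUNT := by
  classical
  intro K hK M m hM hm τ hτ
  obtain ⟨ρ, hρ⟩ : ∃ ρ : ℝ, ρ = ((M : ℝ) * m + 2) * τ := ⟨_, rfl⟩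
  rw [← hρ]
  obtain ⟨T, hTdef⟩ : ∃ T : Set ℝ, T = Metric.cthickening ρ K := ⟨_, rfl⟩
  rw [← hTdef]
  have hMm : (0 : ℝ) ≤ (M : ℝ) * m := by positivity
  have hm0 : (0 : ℝ) < m := by exact_mod_cast hm
  have hKT : K ⊆ T := by
    rw [hTdef]
    exact Metric.self_subset_cthickening K
  have hTfin : volume T ≠ ⊤ := by
    rw [hTdef]
    exact (hK.cthickening.measure_lt_top).ne
  -- the cells which meet `K`
  have hAfin : ((fun y : ℝ => ⌊y / τ⌋) '' K).Finite := by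
    obtain ⟨R, hR⟩ := hK.isBounded.exists_norm_le
    refine (Set.finite_Icc ⌊-R / τ⌋ ⌊R / τ⌋).subset ?_
    rintro _ ⟨y, hy, rfl⟩
    have h1 := hR y hy
    rw [Real.norm_eq_abs, abs_le] at h1
    exact ⟨Int.floor_mono (div_le_div_of_nonneg_right h1.1 hτ.le),
      Int.floor_mono (div_le_div_of_nonneg_right h1.2 hτ.le)⟩
  obtain ⟨A, hA⟩ : ∃ A : Finset ℤ, ∀ i, i ∈ A ↔ ∃ y ∈ K, ⌊y / τ⌋ = i :=
    ⟨hAfin.toFinset, fun i => by rw [Set.Finite.mem_toFinset]; rfl⟩
  have hp' : ∀ i, ∃ y, i ∈ A → y ∈ K ∧ ⌊y / τ⌋ = i := by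
    intro i
    by_cases h : i ∈ A
    · obtain ⟨y, hy⟩ := (hA i).1 h
      exact ⟨y, fun _ => hy⟩
    · exact ⟨0, fun h' => absurd h' h⟩
  choose p hp using hp'
  -- points of cells near `A`
  have hnear : ∀ i ∈ A, ∀ j : ℤ, |i - j| ≤ (M : ℤ) * m → cell τ j ⊆ T := by
    intro i hi j hij x hx
    obtain ⟨hpK, hpi⟩ := hp i hi
    rw [← mem_cell hτ] at hpi
    obtain ⟨a1, a2⟩ := hpi
    obtain ⟨b1, b2⟩ := hx
    have hij' : |(i : ℝ) - j| ≤ (M : ℝ) * m := by exact_mod_cast hij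
    obtain ⟨c1, c2⟩ := abs_le.1 hij'
    rw [hTdef]
    refine Metric.mem_cthickening_of_dist_le x (p i) ρ K hpK ?_
    rw [Real.dist_eq, hρ, abs_le]
    constructor <;> nlinarith
  have h1 : (A.card : ℝ) * τ ≤ (volume T).toReal := by
    have h := cells_le hτ A T ∅ hTfin MeasurableSet.empty (Set.empty_subset _)
      (fun i hi => hnear i hi i (by rw [sub_self, abs_zero]; positivity)) (fun i _ => Set.disjoint_empty _)
    simpa using h
  -- the cells near the boundary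
  obtain ⟨A2, hA2⟩ : ∃ A2 : Finset ℤ, ∀ i, i ∈ A2 ↔ i ∈ A ∧ ∃ j, j ∉ A ∧ |i - j| ≤ (M : ℤ) * m :=
    ⟨A.filter fun i => ∃ j, j ∉ A ∧ |i - j| ≤ (M : ℤ) * m, fun i => by rw [Finset.mem_filter]⟩
  obtain ⟨E, hE⟩ : ∃ E : Finset ℤ, ∀ j, j ∈ E ↔ j ∉ A ∧ ∃ i ∈ A, |i - j| ≤ (M : ℤ) * m := by
    refine ⟨(A.biUnion fun i => Finset.Icc (i - (M : ℤ) * m) (i + (M : ℤ) * m)).filter fun j => j ∉ A,
      fun j => ?_⟩
    rw [Finset.mem_filter, Finset.mem_biUnion]
    constructor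
    · rintro ⟨⟨i, hi, hij⟩, hj⟩
      rw [Finset.mem_Icc] at hij
      refine ⟨hj, i, hi, abs_le.2 ⟨?_, ?_⟩⟩ <;> linarith [hij.1, hij.2]
    · rintro ⟨hj, i, hi, hij⟩
      obtain ⟨c1, c2⟩ := abs_le.1 hij
      exact ⟨⟨i, hi, Finset.mem_Icc.2 ⟨by linarith, by linarith⟩⟩, hj⟩
  have h2 : (E.card : ℝ) * τ + (volume K).toReal ≤ (volume T).toReal := by
    refine cells_le hτ E T K hTfin hK.measurableSet hKT ?_ ?_
    · intro j hj
      obtain ⟨_, i, hi, hij⟩ := (hE j).1 hj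
      exact hnear i hi j hij
    · intro j hj
      refine Set.disjoint_left.2 fun x hx hxK => ((hE j).1 hj).1 ?_
      exact (hA j).2 ⟨x, hxK, (mem_cell hτ j x).1 hx⟩
  have h3 : (A2.card : ℝ) ≤ (E.card : ℝ) * (2 * M * m + 1) := by
    have h : A2.card ≤ E.card * (2 * M * m + 1) := by
      calc A2.card ≤ (E.biUnion fun j => Finset.Icc (j - (M : ℤ) * m) (j + (M : ℤ) * m)).card := by
            refine Finset.card_le_card fun i hi => ?_
            obtain ⟨hiA, j, hj, hij⟩ := (hA2 i).1 hi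
            obtain ⟨c1, c2⟩ := abs_le.1 hij
            rw [Finset.mem_biUnion]
            exact ⟨j, (hE j).2 ⟨hj, i, hiA, hij⟩, Finset.mem_Icc.2 ⟨by linarith, by linarith⟩⟩
        _ ≤ ∑ j ∈ E, (Finset.Icc (j - (M : ℤ) * m) (j + (M : ℤ) * m)).card := Finset.card_biUnion_le
        _ = ∑ j ∈ E, (2 * M * m + 1) := by
            refine Finset.sum_congr rfl fun j _ => ?_
            rw [Int.card_Icc]
            have e : j + (M : ℤ) * m + 1 - (j - (M : ℤ) * m) = ((2 * M * m + 1 : ℕ) : ℤ) := by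
              push_cast
              ring
            rw [e, Int.toNat_natCast]
        _ = E.card * (2 * M * m + 1) := by rw [Finset.sum_const, smul_eq_mul]
    exact_mod_cast h
  -- the residues
  obtain ⟨r, hr, hr1⟩ : ∃ r ∈ Finset.Ico (0 : ℤ) m, ((A.filter fun i => i % (m : ℤ) = r).card : ℝ) ≤
      (A.card : ℝ) / m := by
    refine Finset.exists_card_fiber_le_of_card_le_nsmul (f := fun i : ℤ => i % (m : ℤ)) ?_ ?_
    · exact Finset.nonempty_Ico.2 (by exact_mod_cast hm)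
    · rw [Int.card_Ico, sub_zero, Int.toNat_natCast, nsmul_eq_mul, mul_div_cancel₀ _ hm0.ne']
  rw [Finset.mem_Ico] at hr
  obtain ⟨Ar, hAr⟩ : ∃ Ar, Ar = A.filter fun i => i % (m : ℤ) = r := ⟨_, rfl⟩
  rw [← hAr] at hr1
  have hr2 : (Ar.card : ℝ) * m ≤ A.card := by
    rwa [le_div_iff₀ hm0] at hr1
  refine ⟨Ar ∪ A2, p, r, ?_, ?_, ?_⟩
  · intro i hi
    have hiA : i ∈ A := by
      rcases Finset.mem_union.1 hi with h | h
      · rw [hAr] at h
        exact (Finset.mem_filter.1 h).1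
      · exact ((hA2 i).1 h).1
    obtain ⟨a, b⟩ := hp i hiA
    rw [← mem_cell hτ] at b
    exact ⟨a, b.1, b.2⟩
  · have h4 : ((Ar ∪ A2).card : ℝ) ≤ Ar.card + A2.card := by
      exact_mod_cast Finset.card_union_le _ _
    have h5 : (E.card : ℝ) * τ ≤ (volume T).toReal - (volume K).toReal := by linarith
    have hc : (0 : ℝ) ≤ (2 * M * m + 1) * m := by positivity
    calc ((Ar ∪ A2).card : ℝ) * (m * τ) ≤ (Ar.card + A2.card) * (m * τ) := by gcongr
      _ = (Ar.card * m) * τ + A2.card * (m * τ) := by ring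
      _ ≤ A.card * τ + ((E.card : ℝ) * (2 * M * m + 1)) * (m * τ) := by gcongr
      _ = A.card * τ + (2 * M * m + 1) * m * (E.card * τ) := by ring
      _ ≤ (volume T).toReal + (2 * M * m + 1) * m * ((volume T).toReal - (volume K).toReal) := by
          gcongr
  · intro y hy
    have hyA : ⌊y / τ⌋ ∈ A := (hA _).2 ⟨y, hy, rfl⟩
    by_cases h : ⌊y / τ⌋ ∈ A2
    · exact Or.inl (Finset.mem_union_right _ h)
    · right
      intro j hj hjr
      refine Finset.mem_union_left _ ?_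
      rw [hAr, Finset.mem_filter]
      constructor
      · by_contra hjA
        refine h ((hA2 _).2 ⟨hyA, j, hjA, ?_⟩)
        rw [abs_sub_comm]
        exact hj
      · have e1 : r % (m : ℤ) = j % (m : ℤ) := Int.modEq_iff_dvd.2 hjr
        rw [← e1]
        exact Int.emod_eq_of_lt hr.1 hr.2

end Pool.Agent.N252.FC
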